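import Mathlib

/-!
# Fourier integrals of smooth compactly supported functions on `ℝ³`
-/

set_option autoImplicit false

open MeasureTheory
open scoped ContDiff

namespace Pool.Agent.J6H47.BG

noncomputable section

/-- `ℝ³` -/
abbrev E3 := Fin 3 → ℝ

/-- partial derivative -/
def D (a : Fin 3) (g : E3 → ℝ) (x : E3) : ℝ := fderiv ℝ g x (Pi.single a 1)

/-- smooth with support in the ball of radius `r` -/
structure CS (r : ℝ) (g : E3 → ℝ) : Prop where
  smooth : ContDiff ℝ ∞ g
  supp : ∀ x, r < ‖x‖ → g x = 0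

theorem CS.compact {r : ℝ} {g : E3 → ℝ} (h : CS r g) : HasCompactSupport g :=
  HasCompactSupport.intro (isCompact_closedBall (0 : E3) r) fun x hx => h.supp x (by
    simpa [Metric.mem_closedBall, dist_zero_right] using hx)

theorem CS.D {r : ℝ} {g : E3 → ℝ} (h : CS r g) (a : Fin 3) : CS r (D a g) where
  smooth := by
    have h1 : ContDiff ℝ ∞ (fderiv ℝ g) := h.smooth.fderiv_right (by simp)
    exact h1.clm_apply contDiff_const
  supp := by
    intro x hx
    unfold BG.D
    have h1 : g =ᶠ[nhds x] fun _ => 0 := by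
      have h2 : {y : E3 | r < ‖y‖} ∈ nhds x := (isOpen_lt continuous_const continuous_norm).mem_nhds hx
      filter_upwards [h2] with y hy using h.supp y hy
    rw [h1.fderiv_eq]
    simp

theorem CS.cont {r : ℝ} {g : E3 → ℝ} (h : CS r g) : Continuous g := h.smooth.continuous

theorem CS.integrable {r : ℝ} {g : E3 → ℝ} (h : CS r g) : Integrable g :=
  h.cont.integrable_of_hasCompactSupport h.compact

theorem CS.bound {r : ℝ} {g : E3 → ℝ} (h : CS r g) : ∃ M : ℝ, 0 ≤ M ∧ ∀ x, |g x| ≤ M := by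
  obtain ⟨M, hM⟩ := h.compact.exists_bound_of_continuous h.cont
  exact ⟨M, (norm_nonneg _).trans (hM 0), fun x => hM x⟩

/-- the character `exp (- i κ·x)` -/
def ch (κ : E3) (x : E3) : ℂ := Complex.exp (-(((∑ a, κ a * x a : ℝ) : ℂ) * Complex.I))

theorem ch_cont (κ : E3) : Continuous (ch κ) := by
  unfold ch; fun_prop

theorem ch_norm (κ x : E3) : ‖ch κ x‖ = 1 := by
  unfold ch
  rw [show -(((∑ a, κ a * x a : ℝ) : ℂ) * Complex.I) = ((-(∑ a, κ a * x a) : ℝ) : ℂ) * Complex.I by
    push_cast; ring]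
  exact Complex.norm_exp_ofReal_mul_I _

theorem ch_hasFDerivAt (κ x : E3) : HasFDerivAt (ch κ)
    ((-(Complex.I) * ch κ x) • (∑ a, (κ a) • (Complex.ofRealCLM.comp
      (ContinuousLinearMap.proj (R := ℝ) (φ := fun _ : Fin 3 => ℝ) a)) : E3 →L[ℝ] ℂ)) x := by
  have h1 : HasFDerivAt (fun x : E3 => (((∑ a, κ a * x a : ℝ) : ℂ)))
      (∑ a, (κ a) • (Complex.ofRealCLM.comp
      (ContinuousLinearMap.proj (R := ℝ) (φ := fun _ : Fin 3 => ℝ) a)) : E3 →L[ℝ] ℂ) x := by
    have : (fun x : E3 => (((∑ a, κ a * x a : ℝ) : ℂ))) =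
        fun x => (∑ a, (κ a) • (Complex.ofRealCLM.comp
      (ContinuousLinearMap.proj (R := ℝ) (φ := fun _ : Fin 3 => ℝ) a)) : E3 →L[ℝ] ℂ) x := by
      funext x
      simp
    rw [this]
    exact ContinuousLinearMap.hasFDerivAt _
  have h2 := (h1.mul_const Complex.I).neg.cexp
  unfold ch
  refine h2.congr_fderiv ?_
  ext v
  simp
  ring

theorem ch_D (κ x : E3) (a : Fin 3) :
    fderiv ℝ (ch κ) x (Pi.single a 1) = -(Complex.I * κ a) * ch κ x := by
  rw [(ch_hasFDerivAt κ x).fderiv]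
  have h : ∑ x, (κ x : ℂ) * ((if x = a then 1 else 0 : ℝ) : ℂ) = κ a := by
    rw [Finset.sum_eq_single a]
    · simp
    · intro b _ hb
      simp [hb]
    · simp
  simp [Pi.single_apply]
  rw [h]
  ring

/-- the Fourier integral -/
def FI (g : E3 → ℝ) (κ : E3) : ℂ := ∫ x, ch κ x * (g x : ℂ)

theorem FI_norm_le (g : E3 → ℝ) (κ : E3) : ‖FI g κ‖ ≤ ∫ x, |g x| := by
  unfold FI
  refine (norm_integral_le_integral_norm _).trans (le_of_eq ?_)
  congr 1
  funext x
  rw [norm_mul, ch_norm, one_mul, Complex.norm_real, Real.norm_eq_abs]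

theorem ch_mul_integrable {g : E3 → ℝ} (hg : Integrable g) (κ : E3) :
    Integrable (fun x => ch κ x * (g x : ℂ)) := by
  have h1 : Integrable (fun x => (g x : ℂ)) := hg.ofReal
  refine h1.bdd_mul (c := 1) (ch_cont κ).aestronglyMeasurable ?_
  exact Filter.Eventually.of_forall fun x => (ch_norm κ x).le

theorem FI_D {r : ℝ} {g : E3 → ℝ} (hg : CS r g) (κ : E3) (a : Fin 3) :
    FI (D a g) κ = Complex.I * κ a * FI g κ := by
  have hd : ∀ x, HasFDerivAt (fun x => (g x : ℂ)) (Complex.ofRealCLM.comp (fderiv ℝ g x)) x := by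
    intro x
    exact (Complex.ofRealCLM.hasFDerivAt (x := g x)).comp x
      ((hg.smooth.differentiable (by simp)).differentiableAt.hasFDerivAt)
  have hdv : ∀ x, fderiv ℝ (fun x => (g x : ℂ)) x (Pi.single a 1) = (D a g x : ℂ) := by
    intro x
    rw [(hd x).fderiv]
    simp [D]
  have h := integral_mul_fderiv_eq_neg_fderiv_mul_of_integrable (μ := (volume : Measure E3))
    (f := ch κ) (g := fun x => (g x : ℂ)) (v := (Pi.single a 1 : E3)) ?_ ?_ ?_ ?_ ?_
  · simp only [hdv, ch_D] at h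
    unfold FI
    rw [h, ← integral_const_mul, ← integral_neg]
    congr 1
    funext x
    ring
  · simp only [ch_D]
    have := (ch_mul_integrable hg.integrable κ).const_mul (-(Complex.I * κ a))
    refine this.congr (Filter.Eventually.of_forall fun x => ?_)
    simp only
    ring
  · simp only [hdv]
    exact ch_mul_integrable (hg.D a).integrable κ
  · exact ch_mul_integrable hg.integrable κ
  · intro x _
    exact (ch_hasFDerivAt κ x).differentiableAt
  · intro x _
    exact (hd x).differentiableAt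

/-- decay of the Fourier integral -/
theorem FI_decay {r : ℝ} {g : E3 → ℝ} (hg : CS r g) :
    ∃ C : ℝ, 0 ≤ C ∧ ∀ κ : E3, (∑ a, κ a ^ 2) ^ 2 * ‖FI g κ‖ ≤ C := by
  refine ⟨∑ a, ∑ b, ∫ x, |D a (D a (D b (D b g))) x|, ?_, fun κ => ?_⟩
  · exact Finset.sum_nonneg fun a _ => Finset.sum_nonneg fun b _ => integral_nonneg fun x => abs_nonneg _
  · rw [sq, Finset.sum_mul_sum, Finset.sum_mul]
    refine Finset.sum_le_sum fun a _ => ?_
    rw [Finset.sum_mul]
    refine Finset.sum_le_sum fun b _ => ?_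
    refine le_trans (le_of_eq ?_) (FI_norm_le _ κ)
    rw [FI_D (((hg.D b).D b).D a), FI_D ((hg.D b).D b), FI_D (hg.D b), FI_D hg]
    simp only [norm_mul, Complex.norm_I, Complex.norm_real, Real.norm_eq_abs, one_mul]
    rw [← sq_abs (κ a), ← sq_abs (κ b)]
    ring

theorem ch_neg (κ x : E3) : ch (-κ) x = ch κ (-x) := by
  unfold ch
  simp

theorem FI_even {g : E3 → ℝ} (he : ∀ x, g (-x) = g x) (κ : E3) : FI g (-κ) = FI g κ := by
  unfold FI
  rw [← integral_neg_eq_self (fun x => ch κ x * (g x : ℂ))]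
  congr 1
  funext x
  rw [ch_neg, he]

theorem FI_conj (g : E3 → ℝ) (κ : E3) : (starRingEnd ℂ) (FI g κ) = FI g (-κ) := by
  unfold FI
  rw [← integral_conj]
  congr 1
  funext x
  rw [map_mul, Complex.conj_ofReal]
  congr 1
  unfold ch
  rw [← Complex.exp_conj]
  congr 1
  simp

theorem FI_real {g : E3 → ℝ} (he : ∀ x, g (-x) = g x) (κ : E3) : ((FI g κ).re : ℂ) = FI g κ := by
  rw [← Complex.conj_eq_iff_re, FI_conj, FI_even he]

end

end Pool.Agent.J6H47.BG
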