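import Pool.Agent.H751R2.LHY.Main
import Pool.Agent.J6H47.BG.Four

/-!
# Transfer of compactly supported functions on `ℝ³` to the torus of side `ℓ`
-/

set_option autoImplicit false

open MeasureTheory UnitAddTorus
open scoped ENNReal ContDiff
open Pool.Agent.H751R2.LHY

namespace Pool.Agent.J6H47.BG

noncomputable section

/-- representative in `(-1/2, 1/2]³` -/
def sec (y : T3) : E3 := (measurableEquivPiIoc (fun _ : Fin 3 => (-(1 / 2) : ℝ)) y).1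

theorem sec_meas : Measurable sec :=
  measurable_subtype_coe.comp (measurableEquivPiIoc (fun _ : Fin 3 => (-(1 / 2) : ℝ))).measurable

/-- the box -/
def bx : Set E3 := {x | ∀ i, x i ∈ Set.Ioc (-(1 / 2) : ℝ) (-(1 / 2) + 1)}

theorem sec_pr {x : E3} (hx : x ∈ bx) : sec (fun a => (x a : UnitAddCircle)) = x :=
  congrArg Subtype.val ((measurableEquivPiIoc (fun _ : Fin 3 => (-(1 / 2) : ℝ))).apply_symm_apply
    ⟨x, hx⟩)

theorem bx_meas : MeasurableSet bx := MeasurableSet.univ_pi' (fun _ => measurableSet_Ioc)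

theorem not_bx {x : E3} (hx : x ∉ bx) {r ℓ : ℝ} (hℓ : 0 < ℓ) (hr : 2 * r < ℓ) : r < ‖ℓ • x‖ := by
  have h1 : ∃ i, ¬ (x i ∈ Set.Ioc (-(1 / 2) : ℝ) (-(1 / 2) + 1)) := by
    by_contra hcon
    push Not at hcon
    exact hx hcon
  obtain ⟨i, hi⟩ := h1
  have h2 : 1 / 2 ≤ |x i| := by
    rw [Set.mem_Ioc, not_and_or, not_lt, not_le] at hi
    rcases hi with h | h
    · rw [abs_of_nonpos (by linarith)]; linarith
    · rw [abs_of_nonneg (by linarith)]; linarith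
  have h3 : |x i| ≤ ‖x‖ := norm_le_pi_norm x i
  rw [norm_smul, Real.norm_eq_abs, abs_of_pos hℓ]
  nlinarith

theorem box_int {E : Type*} [NormedAddCommGroup E] [NormedSpace ℝ E] {F : E3 → E} {r ℓ : ℝ}
    (hF : ∀ z, r < ‖z‖ → F z = 0) (hℓ : 0 < ℓ) (hr : 2 * r < ℓ) :
    ∫ x in bx, F (ℓ • x) = (1 / ℓ ^ 3) • ∫ z, F z := by
  rw [setIntegral_eq_integral_of_forall_compl_eq_zero (fun x hx => hF _ (not_bx hx hℓ hr)),
    Measure.integral_comp_smul]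
  simp only [Module.finrank_fintype_fun_eq_card, Fintype.card_fin]
  rw [abs_of_pos (by positivity), one_div]

/-- function on the torus -/
def Tf (ℓ : ℝ) (g : E3 → ℝ) (y : T3) : ℝ := g (ℓ • sec y)

theorem Tf_meas (ℓ : ℝ) {g : E3 → ℝ} (hg : Measurable g) : Measurable (Tf ℓ g) :=
  hg.comp (sec_meas.const_smul ℓ)

/-- rescaled momentum -/
def kp (ℓ : ℝ) (n : Mom) : E3 := fun a => 2 * Real.pi * n a / ℓ

theorem coef_eq {r ℓ : ℝ} {g : E3 → ℝ} (hg : ∀ x, r < ‖x‖ → g x = 0) (hℓ : 0 < ℓ) (hr : 2 * r < ℓ)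
    (n : Mom) :
    mFourierCoeff (fun y => (Tf ℓ g y : ℂ)) n = ((1 / ℓ ^ 3 : ℝ) : ℂ) * FI g (kp ℓ n) := by
  rw [mFourierCoeff_eq_integral _ n (fun _ => (-(1 / 2) : ℝ))]
  have h1 : ∫ (x : Fin 3 → ℝ) in {x : Fin 3 → ℝ | ∀ i, x i ∈ Set.Ioc (-(1 / 2) : ℝ) (-(1 / 2) + 1)},
      mFourier (-n) (fun i => (x i : UnitAddCircle)) •
        (Tf ℓ g (fun i => (x i : UnitAddCircle)) : ℂ) =
      ∫ x in bx, (fun z => ch (kp ℓ n) z * (g z : ℂ)) (ℓ • x) := by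
    refine setIntegral_congr_fun bx_meas fun x hx => ?_
    simp only [Tf, smul_eq_mul]
    rw [sec_pr hx]
    congr 1
    rw [mFourier_coe]
    unfold ch kp
    congr 1
    rw [← neg_mul]
    congr 1
    rw [← Complex.ofReal_neg]
    congr 1
    rw [← Finset.sum_neg_distrib]
    refine Finset.sum_congr rfl fun a _ => ?_
    simp only [Pi.neg_apply, Int.cast_neg, Pi.smul_apply, smul_eq_mul]
    field_simp
  rw [h1, box_int (F := fun z => ch (kp ℓ n) z * (g z : ℂ)) (r := r)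
    (fun z hz => by simp [hg z hz]) hℓ hr]
  rw [Complex.real_smul]
  rfl

theorem Tf_sq {r ℓ : ℝ} {g : E3 → ℝ} (hg : ∀ x, r < ‖x‖ → g x = 0) (hℓ : 0 < ℓ) (hr : 2 * r < ℓ) :
    ∫ y : T3, Tf ℓ g y ^ 2 = (1 / ℓ ^ 3) * ∫ x, g x ^ 2 := by
  rw [integral_preimage _ (fun _ => (-(1 / 2) : ℝ))]
  have h1 : ∫ (x : Fin 3 → ℝ) in {x : Fin 3 → ℝ | ∀ i, x i ∈ Set.Ioc (-(1 / 2) : ℝ) (-(1 / 2) + 1)},
      Tf ℓ g (fun i => (x i : UnitAddCircle)) ^ 2 =
      ∫ x in bx, (fun z => g z ^ 2) (ℓ • x) := by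
    refine setIntegral_congr_fun bx_meas fun x hx => ?_
    simp only [Tf]
    rw [sec_pr hx]
  rw [h1, box_int (F := fun z => g z ^ 2) (r := r) (fun z hz => by simp [hg z hz]) hℓ hr,
    smul_eq_mul]

theorem Tf_memLp {r : ℝ} {g : E3 → ℝ} (hg : CS r g) (ℓ : ℝ) :
    MemLp (fun y => (Tf ℓ g y : ℂ)) 2 (volume : Measure T3) := by
  obtain ⟨M, -, hM⟩ := hg.bound
  refine MemLp.of_bound (C := M) ?_ (Filter.Eventually.of_forall fun y => ?_)
  · exact (Complex.measurable_ofReal.comp (Tf_meas ℓ hg.cont.measurable)).aestronglyMeasurable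
  · rw [Complex.norm_real]
    exact hM _

/-- Bessel's inequality -/
theorem bessel {r ℓ : ℝ} {g : E3 → ℝ} (hg : CS r g) (hℓ : 0 < ℓ) (hr : 2 * r < ℓ)
    (B : Finset Mom) : ∑ n ∈ B, ‖FI g (kp ℓ n)‖ ^ 2 ≤ ℓ ^ 3 * ∫ x, g x ^ 2 := by
  have hL := Tf_memLp hg ℓ
  have h1 := hasSum_sq_mFourierCoeff (hL.toLp _)
  have h2 : ∀ n, mFourierCoeff (hL.toLp _) n = ((1 / ℓ ^ 3 : ℝ) : ℂ) * FI g (kp ℓ n) := by
    intro n
    rw [← coef_eq hg.supp hℓ hr n]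
    unfold mFourierCoeff
    refine integral_congr_ae ?_
    filter_upwards [hL.coeFn_toLp] with y hy
    rw [hy]
  have h3 : ∫ t, ‖(hL.toLp _ : T3 → ℂ) t‖ ^ 2 = (1 / ℓ ^ 3) * ∫ x, g x ^ 2 := by
    rw [← Tf_sq hg.supp hℓ hr]
    refine integral_congr_ae ?_
    filter_upwards [hL.coeFn_toLp] with y hy
    rw [hy, Complex.norm_real, Real.norm_eq_abs, sq_abs]
  rw [h3] at h1
  have h4 := sum_le_hasSum B (fun n _ => sq_nonneg _) h1
  simp only [h2, norm_mul, Complex.norm_real, Real.norm_eq_abs, mul_pow, sq_abs] at h4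
  rw [← Finset.mul_sum] at h4
  have h5 : 0 < ℓ ^ 3 := by positivity
  have h6 : (1 / ℓ ^ 3) ^ 2 * ∑ n ∈ B, ‖FI g (kp ℓ n)‖ ^ 2 * (ℓ ^ 3) ^ 2 ≤
      (1 / ℓ ^ 3) * (∫ x, g x ^ 2) * (ℓ ^ 3) ^ 2 := by
    rw [← Finset.sum_mul, ← mul_assoc]
    exact mul_le_mul_of_nonneg_right h4 (by positivity)
  rw [← Finset.sum_mul] at h6
  have e1 : (1 / ℓ ^ 3) ^ 2 * ((∑ n ∈ B, ‖FI g (kp ℓ n)‖ ^ 2) * (ℓ ^ 3) ^ 2) =
      ∑ n ∈ B, ‖FI g (kp ℓ n)‖ ^ 2 := by
    field_simp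
  have e2 : (1 / ℓ ^ 3) * (∫ x, g x ^ 2) * (ℓ ^ 3) ^ 2 = ℓ ^ 3 * ∫ x, g x ^ 2 := by
    field_simp
  rw [e1, e2] at h6
  exact h6

/-! ### the coefficients -/

/-- Fourier coefficient of the periodised function -/
def cf (w : E3 → ℝ) (ℓ : ℝ) (n : Mom) : ℝ := (1 / ℓ ^ 3) * (FI w (kp ℓ n)).re

theorem kp_neg (ℓ : ℝ) (n : Mom) : kp ℓ (-n) = -kp ℓ n := by
  funext a
  simp only [kp, Pi.neg_apply, Int.cast_neg]
  ring

theorem cf_even {w : E3 → ℝ} (he : ∀ x, w (-x) = w x) (ℓ : ℝ) (n : Mom) :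
    cf w ℓ (-n) = cf w ℓ n := by
  unfold cf
  rw [kp_neg, FI_even he]

theorem cf_coe {w : E3 → ℝ} (he : ∀ x, w (-x) = w x) (ℓ : ℝ) (n : Mom) :
    (cf w ℓ n : ℂ) = ((1 / ℓ ^ 3 : ℝ) : ℂ) * FI w (kp ℓ n) := by
  unfold cf
  rw [Complex.ofReal_mul, FI_real he]

theorem cf_abs_le (w : E3 → ℝ) {ℓ : ℝ} (hℓ : 0 < ℓ) (n : Mom) :
    |cf w ℓ n| ≤ (1 / ℓ ^ 3) * ‖FI w (kp ℓ n)‖ := by
  unfold cf
  rw [abs_mul, abs_of_pos (by positivity : (0 : ℝ) < 1 / ℓ ^ 3)]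
  exact mul_le_mul_of_nonneg_left (Complex.abs_re_le_norm _) (by positivity)

theorem kp_sq {ℓ : ℝ} (n : Mom) : ∑ a, kp ℓ n a ^ 2 = (2 * Real.pi / ℓ) ^ 2 * H751R2.LHY.sq n := by
  unfold H751R2.LHY.sq kp
  rw [Finset.mul_sum]
  refine Finset.sum_congr rfl fun a _ => ?_
  ring

theorem sq_ge_one {n : Mom} (hn : n ≠ 0) : 1 ≤ H751R2.LHY.sq n := by
  obtain ⟨a, ha⟩ := Function.ne_iff.mp hn
  have h1 : (1 : ℤ) ≤ (n a) ^ 2 := by
    have : 0 < (n a) ^ 2 := by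
      have : n a ≠ 0 := ha
      positivity
    omega
  have h2 : (1 : ℝ) ≤ (n a : ℝ) ^ 2 := by exact_mod_cast h1
  exact h2.trans (Finset.single_le_sum (f := fun a => (n a : ℝ) ^ 2) (fun _ _ => sq_nonneg _)
    (Finset.mem_univ a))

theorem mem_box {R : ℕ} {n : Mom} : n ∈ boxM R ↔ ∀ a, -(R : ℤ) ≤ n a ∧ n a ≤ R := by
  simp [boxM, Fintype.mem_piFinset]

theorem summable_sq : Summable (fun n : Mom => 1 / H751R2.LHY.sq n ^ 2) := by
  obtain ⟨C, hC, h⟩ := tail_sum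
  refine summable_of_sum_le (c := ((boxM 1).card : ℝ) + C / 1) (fun n => by positivity) fun F => ?_
  classical
  rw [← Finset.sum_filter_add_sum_filter_not F (fun n => n ∈ boxM 1)]
  refine add_le_add ?_ (h 1 le_rfl _ fun n hn => ?_)
  · calc ∑ n ∈ F.filter (fun n => n ∈ boxM 1), 1 / H751R2.LHY.sq n ^ 2
        ≤ ∑ n ∈ F.filter (fun n => n ∈ boxM 1), (1 : ℝ) := by
          refine Finset.sum_le_sum fun n _ => ?_
          by_cases h0 : n = 0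
          · subst h0
            simp [H751R2.LHY.sq]
          · have := sq_ge_one h0
            rw [div_le_one (by positivity)]
            exact one_le_pow₀ this
      _ = ((F.filter (fun n => n ∈ boxM 1)).card : ℝ) := by simp
      _ ≤ _ := by
          exact_mod_cast Finset.card_le_card fun n hn => (Finset.mem_filter.1 hn).2
  · have hn' := (Finset.mem_filter.1 hn).2
    rw [mem_box] at hn'
    push Not at hn'
    obtain ⟨a, ha⟩ := hn'
    have h2 : (4 : ℤ) ≤ (n a) ^ 2 := by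
      by_cases h3 : -((1 : ℕ) : ℤ) ≤ n a
      · have := ha h3
        push_cast at this
        nlinarith
      · push_cast at h3
        nlinarith
    have h3 : (4 : ℝ) ≤ (n a : ℝ) ^ 2 := by exact_mod_cast h2
    have h4 : (n a : ℝ) ^ 2 ≤ H751R2.LHY.sq n := Finset.single_le_sum (f := fun a => (n a : ℝ) ^ 2)
      (fun _ _ => sq_nonneg _) (Finset.mem_univ a)
    linarith

theorem cf_summable {r ℓ : ℝ} {w : E3 → ℝ} (hw : CS r w) (hℓ : 0 < ℓ) :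
    Summable (fun n => |cf w ℓ n|) := by
  obtain ⟨C, hC0, hC⟩ := FI_decay hw
  have h1 : Summable (fun n : Mom => (if n = 0 then |cf w ℓ 0| else 0) +
      (1 / ℓ ^ 3 * (C / ((2 * Real.pi / ℓ) ^ 2) ^ 2)) * (1 / H751R2.LHY.sq n ^ 2)) := by
    refine Summable.add ?_ (summable_sq.mul_left _)
    exact summable_of_ne_finset_zero (s := {0}) fun n hn => by
      rw [if_neg (by simpa using hn)]
  refine Summable.of_nonneg_of_le (fun n => abs_nonneg _) (fun n => ?_) h1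
  by_cases h0 : n = 0
  · subst h0
    rw [if_pos rfl]
    have : 0 ≤ (1 / ℓ ^ 3 * (C / ((2 * Real.pi / ℓ) ^ 2) ^ 2)) * (1 / H751R2.LHY.sq (0 : Mom) ^ 2) := by
      positivity
    linarith
  · rw [if_neg h0, zero_add]
    refine (cf_abs_le w hℓ n).trans ?_
    rw [mul_assoc]
    refine mul_le_mul_of_nonneg_left ?_ (by positivity)
    have h2 := hC (kp ℓ n)
    rw [kp_sq, mul_pow] at h2
    have h3 := sq_ge_one h0
    have h4 : 0 < ((2 * Real.pi / ℓ) ^ 2) ^ 2 := by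
      have := Real.pi_pos
      positivity
    rw [div_mul_div_comm, mul_one, le_div_iff₀ (by positivity)]
    linarith

/-- the Fourier series converges almost everywhere -/
theorem series_ae {r ℓ : ℝ} {w : E3 → ℝ} (hw : CS r w) (he : ∀ x, w (-x) = w x) (hℓ : 0 < ℓ)
    (hr : 2 * r < ℓ) :
    ∀ᵐ y : T3, HasSum (fun n => cf w ℓ n * cs n y) (Tf ℓ w y) := by
  have hL := Tf_memLp hw ℓ
  have hs := cf_summable hw hℓ (ℓ := ℓ)
  have hsum : Summable (fun n : Mom => (cf w ℓ n : ℂ) • (mFourier n : C(T3, ℂ))) := by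
    refine Summable.of_norm ?_
    refine hs.congr fun n => ?_
    rw [norm_smul, mFourier_norm, mul_one, Complex.norm_real, Real.norm_eq_abs]
  obtain ⟨h, hh⟩ := hsum
  have h2 : ∀ n, mFourierCoeff (hL.toLp _) n = (cf w ℓ n : ℂ) := by
    intro n
    rw [cf_coe he, ← coef_eq hw.supp hℓ hr n]
    unfold mFourierCoeff
    refine integral_congr_ae ?_
    filter_upwards [hL.coeFn_toLp] with y hy
    rw [hy]
  have h3 := hasSum_mFourier_series_L2 (hL.toLp _)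
  simp only [h2] at h3
  have h4 := (ContinuousMap.toLp (E := ℂ) 2 (volume : Measure T3) ℂ).hasSum hh
  simp only [map_smul] at h4
  have h5 := h4.unique h3
  have h6 : (h : T3 → ℂ) =ᵐ[volume] fun y => (Tf ℓ w y : ℂ) := by
    have a1 := ContinuousMap.coeFn_toLp (𝕜 := ℂ) (p := 2) (volume : Measure T3) h
    rw [h5] at a1
    exact a1.symm.trans hL.coeFn_toLp
  filter_upwards [h6] with y hy
  have h7 : HasSum (fun n : Mom => (cf w ℓ n : ℂ) * mFourier n y) (h y) := by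
    have := (ContinuousMap.evalCLM ℂ y).hasSum hh
    simpa using! this
  rw [hy] at h7
  have h8 := Complex.reCLM.hasSum h7
  simp only [Complex.reCLM_apply, Complex.re_ofReal_mul, Complex.ofReal_re] at h8
  exact h8

theorem box_tendsto : Filter.Tendsto boxM Filter.atTop Filter.atTop := by
  refine Filter.tendsto_atTop_finset_of_monotone (fun R S hRS n hn => ?_) fun n => ?_
  · rw [mem_box] at *
    intro a
    have := hn a
    omega
  · refine ⟨∑ a, (n a).natAbs, ?_⟩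
    rw [mem_box]
    intro a
    have h1 : (n a).natAbs ≤ ∑ a, (n a).natAbs :=
      Finset.single_le_sum (f := fun a => (n a).natAbs) (fun _ _ => Nat.zero_le _)
        (Finset.mem_univ a)
    omega

theorem cs_zero (y : T3) : cs 0 y = 1 := by
  simp [cs, mFourier_zero]

theorem cs_abs (n : Mom) (y : T3) : |cs n y| ≤ 1 := by
  have h1 : |cs n y| ≤ ‖mFourier n y‖ := Complex.abs_re_le_norm _
  have h2 : ‖mFourier n y‖ ≤ 1 := by
    have := (mFourier n).norm_coe_le_norm y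
    rwa [mFourier_norm] at this
  exact h1.trans h2

theorem wf_erase (w : E3 → ℝ) (ℓ : ℝ) (R : ℕ) (y : T3) :
    wf ((boxM R).erase 0) (cf w ℓ) y = ∑ n ∈ boxM R, cf w ℓ n * cs n y - cf w ℓ 0 := by
  have h0 : (0 : Mom) ∈ boxM R := by
    rw [mem_box]; intro a; simp
  unfold wf
  rw [← Finset.sum_erase_add _ _ h0, cs_zero]
  ring

/-- the potential energy along the boxes -/
theorem pot_tendsto {v : E3 → ℝ} (hvm : Measurable v) (hv : Integrable v)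
    (hve : ∀ x, v (-x) = v x) {r ℓ : ℝ} {w : E3 → ℝ} (hw : CS r w) (he : ∀ x, w (-x) = w x)
    (hℓ : 0 < ℓ) (hr : 2 * r < ℓ) :
    Filter.Tendsto (fun R => ∫ y, Wr v ℓ y * (1 - wf ((boxM R).erase 0) (cf w ℓ) y) ^ 2)
      Filter.atTop (nhds (∫ y, Wr v ℓ y * (1 - Tf ℓ w y + cf w ℓ 0) ^ 2)) := by
  have hs := cf_summable hw hℓ (ℓ := ℓ)
  have hP := Wr_pot hvm hv hve hℓ
  have hcsm : ∀ n, Measurable (cs n) := fun n => cs_meas n
  refine tendsto_integral_of_dominated_convergence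
    (fun y => Wr v ℓ y * (1 + 2 * ∑' n, |cf w ℓ n|) ^ 2) ?_ (hP.int.mul_const _) ?_ ?_
  · intro R
    refine (hP.int.aestronglyMeasurable).mul (Measurable.aestronglyMeasurable ?_)
    refine (measurable_const.sub ?_).pow_const 2
    unfold wf
    exact Finset.measurable_sum _ fun n _ => (hcsm n).const_mul _
  · intro R
    refine Filter.Eventually.of_forall fun y => ?_
    rw [norm_mul, Real.norm_eq_abs, abs_of_nonneg (hP.nonneg y), Real.norm_eq_abs, abs_pow]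
    refine mul_le_mul_of_nonneg_left ?_ (hP.nonneg y)
    refine pow_le_pow_left₀ (abs_nonneg _) ?_ 2
    rw [wf_erase]
    have h1 : |∑ n ∈ boxM R, cf w ℓ n * cs n y| ≤ ∑' n, |cf w ℓ n| := by
      refine (Finset.abs_sum_le_sum_abs _ _).trans ?_
      refine le_trans (Finset.sum_le_sum fun n _ => ?_) (hs.sum_le_tsum (boxM R)
        (fun n _ => abs_nonneg _))
      rw [abs_mul]
      exact mul_le_of_le_one_right (abs_nonneg _) (cs_abs n y)
    have h2 : |cf w ℓ 0| ≤ ∑' n, |cf w ℓ n| := hs.le_tsum 0 (fun n _ => abs_nonneg _)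
    rw [abs_le] at h1 h2 ⊢
    constructor <;> linarith [h1.1, h1.2, h2.1, h2.2]
  · filter_upwards [series_ae hw he hℓ hr] with y hy
    have h1 : Filter.Tendsto (fun R => ∑ n ∈ boxM R, cf w ℓ n * cs n y) Filter.atTop
        (nhds (Tf ℓ w y)) := hy.comp box_tendsto
    have h2 : (fun R => Wr v ℓ y * (1 - wf ((boxM R).erase 0) (cf w ℓ) y) ^ 2) =
        fun R => Wr v ℓ y * (1 - (∑ n ∈ boxM R, cf w ℓ n * cs n y - cf w ℓ 0)) ^ 2 := by
      funext R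
      rw [wf_erase]
    rw [h2]
    have h3 : 1 - Tf ℓ w y + cf w ℓ 0 = 1 - (Tf ℓ w y - cf w ℓ 0) := by ring
    rw [h3]
    exact ((tendsto_const_nhds.sub (h1.sub tendsto_const_nhds)).pow 2).const_mul _

/-- the kinetic energy -/
theorem kin_le {r ℓ : ℝ} {w : E3 → ℝ} (hw : CS r w) (hℓ : 0 < ℓ) (hr : 2 * r < ℓ)
    {m : ℝ} (hm : 0 < m) {μ : ℝ} (hμ : 0 ≤ μ) (B : Finset Mom) :
    ℓ ^ 3 * ∑ n ∈ B, (2 * ((1 / (2 * m) * (2 * Real.pi / ℓ) ^ 2) * H751R2.LHY.sq n) + 2 * μ) * cf w ℓ n ^ 2 ≤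
      (1 / m) * ∑ a, (∫ x, D a w x ^ 2) + 2 * μ * ∫ x, w x ^ 2 := by
  have hc : ∀ n, cf w ℓ n ^ 2 ≤ (1 / ℓ ^ 3) ^ 2 * ‖FI w (kp ℓ n)‖ ^ 2 := by
    intro n
    rw [← mul_pow, ← sq_abs]
    exact pow_le_pow_left₀ (abs_nonneg _) (cf_abs_le w hℓ n) 2
  have hD : ∀ n a, ‖FI (D a w) (kp ℓ n)‖ ^ 2 = kp ℓ n a ^ 2 * ‖FI w (kp ℓ n)‖ ^ 2 := by
    intro n a
    rw [FI_D hw, norm_mul, norm_mul, Complex.norm_I, one_mul, Complex.norm_real, Real.norm_eq_abs,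
      mul_pow, sq_abs]
  have h1 : ∀ n, (2 * ((1 / (2 * m) * (2 * Real.pi / ℓ) ^ 2) * H751R2.LHY.sq n) + 2 * μ) * cf w ℓ n ^ 2 ≤
      (1 / ℓ ^ 3) ^ 2 * ((1 / m) * ∑ a, ‖FI (D a w) (kp ℓ n)‖ ^ 2 +
        2 * μ * ‖FI w (kp ℓ n)‖ ^ 2) := by
    intro n
    have e : ∑ a, ‖FI (D a w) (kp ℓ n)‖ ^ 2 =
        (2 * Real.pi / ℓ) ^ 2 * H751R2.LHY.sq n * ‖FI w (kp ℓ n)‖ ^ 2 := by
      simp only [hD]
      rw [← Finset.sum_mul, kp_sq]
    rw [e]
    have hsq : 0 ≤ H751R2.LHY.sq n := Finset.sum_nonneg fun _ _ => sq_nonneg _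
    have h2 := mul_le_mul_of_nonneg_left (hc n) (show 0 ≤
      (2 * ((1 / (2 * m) * (2 * Real.pi / ℓ) ^ 2) * H751R2.LHY.sq n) + 2 * μ) by positivity)
    refine h2.trans (le_of_eq ?_)
    field_simp
  have h3 : 0 < ℓ ^ 3 := by positivity
  calc ℓ ^ 3 * ∑ n ∈ B, (2 * ((1 / (2 * m) * (2 * Real.pi / ℓ) ^ 2) * H751R2.LHY.sq n) + 2 * μ) *
        cf w ℓ n ^ 2
      ≤ ℓ ^ 3 * ∑ n ∈ B, (1 / ℓ ^ 3) ^ 2 * ((1 / m) * ∑ a, ‖FI (D a w) (kp ℓ n)‖ ^ 2 +
        2 * μ * ‖FI w (kp ℓ n)‖ ^ 2) :=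
        mul_le_mul_of_nonneg_left (Finset.sum_le_sum fun n _ => h1 n) h3.le
    _ = (1 / ℓ ^ 3) * ((1 / m) * ∑ a, ∑ n ∈ B, ‖FI (D a w) (kp ℓ n)‖ ^ 2 +
        2 * μ * ∑ n ∈ B, ‖FI w (kp ℓ n)‖ ^ 2) := by
        rw [← Finset.mul_sum, Finset.sum_add_distrib, ← Finset.mul_sum, ← Finset.mul_sum,
          Finset.sum_comm]
        field_simp
    _ ≤ (1 / ℓ ^ 3) * ((1 / m) * ∑ a, (ℓ ^ 3 * ∫ x, D a w x ^ 2) +
        2 * μ * (ℓ ^ 3 * ∫ x, w x ^ 2)) := by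
        refine mul_le_mul_of_nonneg_left (add_le_add ?_ ?_) (by positivity)
        · refine mul_le_mul_of_nonneg_left (Finset.sum_le_sum fun a _ => ?_) (by positivity)
          exact bessel (hw.D a) hℓ hr B
        · exact mul_le_mul_of_nonneg_left (bessel hw hℓ hr B) (by positivity)
    _ = _ := by
        rw [← Finset.mul_sum]
        field_simp

end

end Pool.Agent.J6H47.BG
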