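import Pool.Agent.J6H80.BG.Stm
import Pool.Agent.J6H47.BG.Tor

/-!
# Module SU: upper bound of the two-body functional on a large torus
-/

set_option autoImplicit false

open MeasureTheory UnitAddTorus
open scoped ENNReal ContDiff Topology
open Pool.Agent.H751R2.LHY
open Pool.Agent.J6H80.BG (dirE IsTest scatG S_SU)

namespace Pool.Agent.J6H47.BG

noncomputable section

/-- the integrand -/
def en (m : ℝ) (v f : E3 → ℝ) (x : E3) : ℝ := 1 / m * ∑ a, (D a f x) ^ 2 + v x * f x ^ 2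

theorem dirE_eq (m : ℝ) (v f : E3 → ℝ) : dirE m v f = ∫ x, en m v f x := rfl

/-- smooth, equal to one outside the ball of radius `r` -/
structure TestR (r : ℝ) (f : E3 → ℝ) : Prop where
  smooth : ContDiff ℝ ∞ f
  one : ∀ x, r < ‖x‖ → f x = 1

theorem TestR.cs {r : ℝ} {f : E3 → ℝ} (h : TestR r f) : CS r (fun x => 1 - f x) where
  smooth := contDiff_const.sub h.smooth
  supp x hx := by rw [h.one x hx, sub_self]

theorem TestR.D_eq {f : E3 → ℝ} (a : Fin 3) (x : E3) :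
    D a (fun x => 1 - f x) x = -D a f x := by
  unfold D
  rw [fderiv_const_sub]
  simp

theorem CS.sq_int {r : ℝ} {g : E3 → ℝ} (h : CS r g) : Integrable (fun x => g x ^ 2) := by
  refine (h.cont.pow 2).integrable_of_hasCompactSupport ?_
  exact HasCompactSupport.intro (isCompact_closedBall (0 : E3) r) fun x hx => by
    have h1 := h.supp x (by simpa [Metric.mem_closedBall, dist_zero_right] using hx)
    simp [h1]

theorem TestR.D_sq_int {r : ℝ} {f : E3 → ℝ} (h : TestR r f) (a : Fin 3) :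
    Integrable (fun x => D a f x ^ 2) := by
  refine (h.cs.D a).sq_int.congr (Filter.Eventually.of_forall fun x => ?_)
  simp only [TestR.D_eq]
  ring

theorem TestR.bound {r : ℝ} {f : E3 → ℝ} (h : TestR r f) :
    ∃ M : ℝ, 0 ≤ M ∧ ∀ x, |f x| ≤ M := by
  obtain ⟨M, hM0, hM⟩ := h.cs.bound
  refine ⟨1 + M, by linarith, fun x => ?_⟩
  have := hM x
  rw [abs_le] at this ⊢
  constructor <;> linarith [this.1, this.2]

theorem TestR.v_int {r : ℝ} {f : E3 → ℝ} (h : TestR r f) {v : E3 → ℝ} (hv : Integrable v) :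
    Integrable (fun x => v x * f x ^ 2) := by
  obtain ⟨M, hM0, hM⟩ := h.bound
  refine hv.mul_bdd (c := M ^ 2) ((h.smooth.continuous.pow 2).aestronglyMeasurable)
    (Filter.Eventually.of_forall fun x => ?_)
  rw [Real.norm_eq_abs, abs_pow]
  exact pow_le_pow_left₀ (abs_nonneg _) (hM x) 2

theorem TestR.grad_int {r : ℝ} {f : E3 → ℝ} (h : TestR r f) (m : ℝ) :
    Integrable (fun x => 1 / m * ∑ a, (D a f x) ^ 2) :=
  (integrable_finsetSum _ fun a _ => h.D_sq_int a).const_mul _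

theorem TestR.en_int {r : ℝ} {f : E3 → ℝ} (h : TestR r f) (m : ℝ) {v : E3 → ℝ}
    (hv : Integrable v) : Integrable (en m v f) := (h.grad_int m).add (h.v_int hv)

theorem TestR.dir {r : ℝ} {f : E3 → ℝ} (h : TestR r f) (m : ℝ) {v : E3 → ℝ}
    (hv : Integrable v) :
    dirE m v f = 1 / m * (∑ a, ∫ x, D a f x ^ 2) + ∫ x, v x * f x ^ 2 := by
  rw [dirE_eq]
  unfold en
  rw [integral_add (h.grad_int m) (h.v_int hv), integral_const_mul,
    integral_finsetSum _ fun a _ => h.D_sq_int a]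

/-- symmetrisation -/
def sy (f : E3 → ℝ) (x : E3) : ℝ := (f x + f (-x)) / 2

theorem sy_even (f : E3 → ℝ) (x : E3) : sy f (-x) = sy f x := by
  unfold sy; rw [neg_neg, add_comm]

theorem TestR.sy {r : ℝ} {f : E3 → ℝ} (h : TestR r f) : TestR r (sy f) where
  smooth := (h.smooth.add (h.smooth.comp contDiff_neg)).div_const 2
  one x hx := by
    unfold BG.sy
    rw [h.one x hx, h.one (-x) (by rwa [norm_neg])]
    norm_num

theorem D_sy {f : E3 → ℝ} (hf : ContDiff ℝ ∞ f) (a : Fin 3) (x : E3) :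
    D a (sy f) x = (D a f x - D a f (-x)) / 2 := by
  have hd : Differentiable ℝ f := hf.differentiable (by simp)
  have h1 : HasFDerivAt (fun x : E3 => f (-x))
      ((fderiv ℝ f (-x)).comp (-(ContinuousLinearMap.id ℝ E3))) x :=
    (hd (-x)).hasFDerivAt.comp x (hasFDerivAt_id x).neg
  have h2 := ((hd x).hasFDerivAt.add h1).mul_const (1 / 2 : ℝ)
  have h3 : sy f = fun x => (f x + f (-x)) * (1 / 2) := by
    funext x; unfold sy; ring
  unfold D
  rw [h3]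
  erw [h2.fderiv]
  simp
  ring

theorem sy_le {m : ℝ} (hm : 0 < m) {v : E3 → ℝ} (hv : Integrable v) (h0 : ∀ x, 0 ≤ v x)
    (he : ∀ x, v (-x) = v x) {r : ℝ} {f : E3 → ℝ} (hf : TestR r f) :
    dirE m v (sy f) ≤ dirE m v f := by
  rw [dirE_eq, dirE_eq]
  have hi := hf.en_int m hv
  have h1 : ∀ x, en m v (sy f) x ≤ (en m v f x + en m v f (-x)) / 2 := by
    intro x
    unfold en
    have a1 : ∑ a, D a (sy f) x ^ 2 ≤ (∑ a, D a f x ^ 2 + ∑ a, D a f (-x) ^ 2) / 2 := by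
      rw [← Finset.sum_add_distrib, Finset.sum_div]
      refine Finset.sum_le_sum fun a _ => ?_
      rw [D_sy hf.smooth]
      nlinarith [sq_nonneg (D a f x + D a f (-x))]
    have a2 : v x * sy f x ^ 2 ≤ (v x * f x ^ 2 + v (-x) * f (-x) ^ 2) / 2 := by
      rw [he]
      unfold sy
      nlinarith [mul_nonneg (h0 x) (sq_nonneg (f x - f (-x)))]
    have a3 := mul_le_mul_of_nonneg_left a1 (show 0 ≤ 1 / m by positivity)
    linarith
  have h2 : ∫ x, en m v f (-x) = ∫ x, en m v f x := integral_neg_eq_self _ _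
  calc ∫ x, en m v (sy f) x ≤ ∫ x, (en m v f x + en m v f (-x)) / 2 := by
        refine integral_mono (hf.sy.en_int m hv) ((hi.add hi.comp_neg).div_const 2) h1
    _ = ∫ x, en m v f x := by
        rw [integral_div, integral_add hi hi.comp_neg, h2]
        ring

/-- the projection -/
def prl (ℓ : ℝ) (x : E3) : T3 := fun a => ((x a / ℓ : ℝ) : UnitAddCircle)

theorem prl_meas (ℓ : ℝ) : Measurable (prl ℓ) := by
  refine measurable_pi_lambda _ (fun a => ?_)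
  have h : Measurable (fun x : Fin 3 → ℝ => x a / ℓ) := by fun_prop
  exact AddCircle.measurable_mk'.comp h

theorem Tf_prl {ℓ : ℝ} {g : E3 → ℝ} {x : E3} (hx : 2 * ‖x‖ < ℓ) :
    Tf ℓ g (prl ℓ x) = g x := by
  have hℓ : 0 < ℓ := by linarith [norm_nonneg x]
  have h1 : (fun a => x a / ℓ) ∈ bx := by
    intro a
    have h2 : |x a| ≤ ‖x‖ := norm_le_pi_norm x a
    have h3 : |x a / ℓ| < 1 / 2 := by
      rw [abs_div, abs_of_pos hℓ, div_lt_iff₀ hℓ]
      linarith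
    rw [abs_lt] at h3
    rw [Set.mem_Ioc]
    constructor <;> linarith [h3.1, h3.2]
  unfold Tf prl
  rw [sec_pr h1]
  congr 1
  funext a
  simp only [Pi.smul_apply, smul_eq_mul]
  field_simp

theorem cf_zero_le (w : E3 → ℝ) {ℓ : ℝ} (hℓ : 1 ≤ ℓ) : |cf w ℓ 0| ≤ (∫ x, |w x|) / ℓ := by
  have hℓ0 : 0 < ℓ := by linarith
  refine (cf_abs_le w hℓ0 0).trans ?_
  have h1 := FI_norm_le w (kp ℓ 0)
  have h2 : 1 / ℓ ^ 3 ≤ 1 / ℓ := by
    refine one_div_le_one_div_of_le hℓ0 ?_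
    calc ℓ = ℓ * 1 := (mul_one _).symm
      _ ≤ ℓ * ℓ ^ 2 := mul_le_mul_of_nonneg_left (one_le_pow₀ hℓ) hℓ0.le
      _ = ℓ ^ 3 := by ring
  calc 1 / ℓ ^ 3 * ‖FI w (kp ℓ 0)‖ ≤ 1 / ℓ * (∫ x, |w x|) :=
        mul_le_mul h2 h1 (norm_nonneg _) (by positivity)
    _ = _ := by ring

theorem cf_zero_tendsto (w : E3 → ℝ) : Filter.Tendsto (fun ℓ => cf w ℓ 0) Filter.atTop (𝓝 0) := by
  rw [tendsto_zero_iff_abs_tendsto_zero]
  have h1 : Filter.Tendsto (fun ℓ : ℝ => (∫ x, |w x|) / ℓ) Filter.atTop (𝓝 0) :=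
    Filter.Tendsto.div_atTop tendsto_const_nhds Filter.tendsto_id
  refine tendsto_of_tendsto_of_tendsto_of_le_of_le' tendsto_const_nhds h1
    (Filter.Eventually.of_forall fun ℓ => abs_nonneg _) ?_
  filter_upwards [Filter.eventually_ge_atTop 1] with ℓ hℓ using cf_zero_le w hℓ

theorem A_tendsto {v : E3 → ℝ} (hvm : Measurable v) (hv : Integrable v) (h0 : ∀ x, 0 ≤ v x)
    {r : ℝ} {w : E3 → ℝ} (hw : CS r w) :
    Filter.Tendsto (fun ℓ => ∫ x, v x * (1 - Tf ℓ w (prl ℓ x) + cf w ℓ 0) ^ 2) Filter.atTop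
      (𝓝 (∫ x, v x * (1 - w x) ^ 2)) := by
  obtain ⟨M, hM0, hM⟩ := hw.bound
  have hI : 0 ≤ ∫ x, |w x| := integral_nonneg fun x => abs_nonneg _
  refine tendsto_integral_filter_of_dominated_convergence
    (fun x => v x * (1 + M + ∫ x, |w x|) ^ 2) ?_ ?_ (hv.mul_const _) ?_
  · refine Filter.Eventually.of_forall fun ℓ => Measurable.aestronglyMeasurable ?_
    exact hvm.mul (((measurable_const.sub ((Tf_meas ℓ hw.cont.measurable).comp
      (prl_meas ℓ))).add_const _).pow_const 2)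
  · filter_upwards [Filter.eventually_ge_atTop 1] with ℓ hℓ
    refine Filter.Eventually.of_forall fun x => ?_
    rw [norm_mul, Real.norm_eq_abs, abs_of_nonneg (h0 x), Real.norm_eq_abs, abs_pow]
    refine mul_le_mul_of_nonneg_left (pow_le_pow_left₀ (abs_nonneg _) ?_ 2) (h0 x)
    have h1 : |Tf ℓ w (prl ℓ x)| ≤ M := hM _
    have h2 : |cf w ℓ 0| ≤ ∫ x, |w x| :=
      (cf_zero_le w hℓ).trans (div_le_self hI hℓ)
    rw [abs_le] at h1 h2 ⊢
    constructor <;> linarith [h1.1, h1.2, h2.1, h2.2]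
  · refine Filter.Eventually.of_forall fun x => ?_
    have h1 : Filter.Tendsto (fun ℓ => v x * (1 - w x + cf w ℓ 0) ^ 2) Filter.atTop
        (𝓝 (v x * (1 - w x + 0) ^ 2)) :=
      ((tendsto_const_nhds.add (cf_zero_tendsto w)).pow 2).const_mul _
    rw [add_zero] at h1
    refine h1.congr' ?_
    filter_upwards [Filter.eventually_gt_atTop (2 * ‖x‖)] with ℓ hℓ
    rw [Tf_prl hℓ]

/-- **Module SU.** -/
theorem su : S_SU := by
  intro m hm v hvm hv h0 hve ε hε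
  have hnon : {E | ∃ f, IsTest f ∧ E = dirE m v f}.Nonempty :=
    ⟨dirE m v (fun _ => 1), fun _ => 1, ⟨contDiff_const, 0, fun _ _ => rfl⟩, rfl⟩
  obtain ⟨E, ⟨f, ⟨hf1, r, hf2⟩, rfl⟩, hE⟩ := exists_lt_of_csInf_lt hnon
    (show sInf {E | ∃ f, IsTest f ∧ E = dirE m v f} < scatG m v + ε / 4 by
      unfold scatG; linarith)
  have hf : TestR r f := ⟨hf1, hf2⟩
  have hg : TestR r (sy f) := hf.sy
  have hle := sy_le hm hv h0 hve hf
  obtain ⟨g, hgdef⟩ : ∃ g, g = sy f := ⟨_, rfl⟩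
  have hge : ∀ x, g (-x) = g x := by
    intro x; rw [hgdef]; exact sy_even f x
  rw [← hgdef] at hg hle
  obtain ⟨w, hwdef⟩ : ∃ w : E3 → ℝ, w = fun x => 1 - g x := ⟨_, rfl⟩
  have hw : CS r w := by rw [hwdef]; exact hg.cs
  have hwe : ∀ x, w (-x) = w x := by
    intro x; rw [hwdef]; simp only [hge]
  have hDw : ∀ a, ∫ x, D a w x ^ 2 = ∫ x, D a g x ^ 2 := by
    intro a
    congr 1
    funext x
    rw [hwdef, TestR.D_eq]
    ring
  have hgw : ∀ x, 1 - w x = g x := by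
    intro x; rw [hwdef]; ring
  have hW2 : 0 ≤ ∫ x, w x ^ 2 := integral_nonneg fun x => sq_nonneg _
  refine ⟨ε / (8 * ((∫ x, w x ^ 2) + 1)), by positivity, fun μ hμ hμδ => ?_⟩
  have hμW : 2 * μ * ∫ x, w x ^ 2 ≤ ε / 4 := by
    have h1 : μ * (8 * ((∫ x, w x ^ 2) + 1)) ≤ ε := by
      rwa [le_div_iff₀ (by positivity)] at hμδ
    nlinarith
  have hA := A_tendsto hvm hv h0 hw
  simp only [hgw] at hA
  have hev : ∀ᶠ ℓ : ℝ in Filter.atTop, ∫ x, v x * (1 - Tf ℓ w (prl ℓ x) + cf w ℓ 0) ^ 2 <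
      (∫ x, v x * g x ^ 2) + ε / 4 :=
    hA.eventually (gt_mem_nhds (by linarith))
  obtain ⟨ℓ₁, hℓ₁⟩ := Filter.eventually_atTop.1 hev
  refine ⟨max ℓ₁ (max 1 (2 * r + 1)), lt_of_lt_of_le one_pos
    ((le_max_left _ _).trans (le_max_right _ _)), fun ℓ hℓ => ?_⟩
  have hℓa := hℓ₁ ℓ ((le_max_left _ _).trans hℓ)
  have hℓ1 : 1 ≤ ℓ := ((le_max_left _ _).trans (le_max_right _ _)).trans hℓ
  have hℓr : 2 * r < ℓ := by
    have := ((le_max_right 1 (2 * r + 1)).trans (le_max_right ℓ₁ _)).trans hℓ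
    linarith
  have hℓ0 : 0 < ℓ := by linarith
  have hℓ3 : 0 < ℓ ^ 3 := by positivity
  have hP := pot_tendsto hvm hv hve hw hwe hℓ0 hℓr
  have hev2 := hP.eventually (gt_mem_nhds (show
    (∫ y, Wr v ℓ y * (1 - Tf ℓ w y + cf w ℓ 0) ^ 2) <
    (∫ y, Wr v ℓ y * (1 - Tf ℓ w y + cf w ℓ 0) ^ 2) + ε / (4 * ℓ ^ 3) by
      have : 0 < ε / (4 * ℓ ^ 3) := by positivity
      linarith))
  obtain ⟨R₀, hR₀⟩ := Filter.eventually_atTop.1 hev2
  refine ⟨R₀, fun R hR => ⟨cf w ℓ, cf_even hwe ℓ, ?_⟩⟩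
  have hpot := hR₀ R hR
  have hkin := kin_le hw hℓ0 hℓr hm hμ.le ((boxM R).erase 0)
  have hWr := Wr_integral hvm hv h0 hℓ0 (f := fun y => (1 - Tf ℓ w y + cf w ℓ 0) ^ 2)
    (((measurable_const.sub (Tf_meas ℓ hw.cont.measurable)).add_const _).pow_const 2)
    (fun y => sq_nonneg _)
  have hWr2 : ℓ ^ 3 * ∫ y, Wr v ℓ y * (1 - Tf ℓ w y + cf w ℓ 0) ^ 2 =
      ∫ x, v x * (1 - Tf ℓ w (prl ℓ x) + cf w ℓ 0) ^ 2 := by
    rw [hWr, ← mul_assoc, mul_one_div_cancel hℓ3.ne', one_mul]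
    rfl
  have hpot2 : ℓ ^ 3 * (∫ y, Wr v ℓ y * (1 - wf ((boxM R).erase 0) (cf w ℓ) y) ^ 2) ≤
      (∫ x, v x * (1 - Tf ℓ w (prl ℓ x) + cf w ℓ 0) ^ 2) + ε / 4 := by
    rw [← hWr2]
    have h1 := mul_le_mul_of_nonneg_left hpot.le hℓ3.le
    refine h1.trans (le_of_eq ?_)
    field_simp
  have hdir := hg.dir m hv
  simp only [hDw] at hkin
  unfold Qf
  rw [mul_add]
  linarith

end

end Pool.Agent.J6H47.BG
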